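import Mathlib
import Pool.Agent.H13.Heis

open Set Pool.Agent.H13.Heis

namespace Pool.Agent.Results.MP_5e2b9f_al.Grp

universe u

/-- `supp` is a support map making `S` supp-perfect. -/
structure SuppPerfect {S : Type} {X : Type u} [Semigroup S] (supp : S → Set X) : Prop where
  mul : ∀ f g, supp (f * g) ⊆ supp f ∪ supp g
  comm : ∀ f g, supp f ∩ supp g = ∅ → f * g = g * f
  fin : ∀ f, (supp f).Finite
  finS : ∀ F : Set X, F.Finite → F ⊆ (⋃ f, supp f) → {f | supp f ⊆ F}.Finite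
  cent : ∀ F : Set X, F.Finite → F ⊆ (⋃ f, supp f) →
    {f | supp f ⊆ F} = Cent {f | supp f ⊆ (⋃ f, supp f) \ F}

theorem result : ∃ (G : Type) (_ : Group G), FDC G ∧
    ∀ (X : Type u) (supp : G → Set X), ¬ SuppPerfect supp :=
  ⟨H, inferInstance, fdc, fun _ supp h => not_perfect supp h.comm h.fin h.finS h.cent⟩

end Pool.Agent.Results.MP_5e2b9f_al.Grp
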